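import Mathlib
import Pool.Agent.H33R3.Bom.Stmts
import Pool.Agent.Helper859.SP.W2

set_option autoImplicit false

open Complex Metric Set Filter Topology

namespace Pool.Agent.H788R3.Bom

open Pool.Agent.H33R3.Bom

theorem taskA : TaskA := by
  intro f hf
  obtain ⟨hfd, hi, h0, h1⟩ := hf
  have h0m : (0:ℂ) ∈ ball (0:ℂ) 1 := mem_ball_self one_pos
  have hnb : ball (0:ℂ) 1 ∈ 𝓝 (0:ℂ) := isOpen_ball.mem_nhds h0m
  set q : ℂ → ℂ := dslope f 0 with hqdef
  have hq : DifferentiableOn ℂ q (ball (0:ℂ) 1) := (Complex.differentiableOn_dslope hnb).mpr hfd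
  have hgq : ∀ z, f z = z * q z := by
    intro z
    have := sub_smul_dslope f 0 z
    simp only [sub_zero, h0, smul_eq_mul] at this
    exact this.symm
  have hq1 : q 0 = 1 := by
    change dslope f 0 0 = 1
    rw [dslope_same, h1]
  have hqne : ∀ z ∈ ball (0:ℂ) 1, q z ≠ 0 := by
    intro z hz hqz
    by_cases hz0 : z = 0
    · rw [hz0, hq1] at hqz; exact one_ne_zero hqz
    · have : f z = f 0 := by rw [hgq z, hqz, mul_zero, h0]
      exact hz0 (hi hz h0m this)
  obtain ⟨s, hs, hs0, hsq⟩ := Pool.Agent.Helper859.SP.W2.sqrt_aux q hq hqne hq1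
  have hsne : ∀ z ∈ ball (0:ℂ) 1, s z ≠ 0 := by
    intro z hz h
    apply hqne z hz
    rw [← hsq z hz, h]; ring
  have hsqm : ∀ z ∈ ball (0:ℂ) 1, z ^ 2 ∈ ball (0:ℂ) 1 := by
    intro z hz
    rw [mem_ball_zero_iff] at hz ⊢
    rw [norm_pow]
    nlinarith [norm_nonneg z]
  have hG2 : ∀ z ∈ ball (0:ℂ) 1, (z * s (z ^ 2)) ^ 2 = f (z ^ 2) := by
    intro z hz
    rw [hgq (z ^ 2), ← hsq _ (hsqm z hz)]
    ring
  have hGi : InjOn (fun z => z * s (z ^ 2)) (ball (0:ℂ) 1) := by
    intro a ha b hb' hab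
    have h2 : a ^ 2 = b ^ 2 := by
      apply hi (hsqm a ha) (hsqm b hb')
      have hab' : a * s (a ^ 2) = b * s (b ^ 2) := hab
      rw [← hG2 a ha, ← hG2 b hb', hab']
    rcases sq_eq_sq_iff_eq_or_eq_neg.mp h2 with h3 | h3
    · exact h3
    · have h4 : a * s (a ^ 2) = b * s (b ^ 2) := hab
      rw [h2, h3] at h4
      have h5 : b * s (b ^ 2) = 0 := by linear_combination (-1/2 : ℂ) * h4
      rcases mul_eq_zero.mp h5 with h6 | h6
      · rw [h3, h6]; simp
      · exact absurd h6 (hsne _ (hsqm b hb'))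
  set p : ℂ → ℂ := fun w => (s w)⁻¹ with hp
  have hpd : DifferentiableOn ℂ p (ball (0:ℂ) 1) := hs.inv hsne
  have hp0 : p 0 = 1 := by simp [hp, hs0]
  set Y : ℂ → ℂ := fun z => p (z ^ 2) with hY
  have hYd : DifferentiableOn ℂ Y (ball (0:ℂ) 1) := hpd.comp (by fun_prop) hsqm
  refine ⟨Y, ⟨hYd, ?_, ?_, ?_, ?_⟩, ?_, ?_⟩
  · intro z _
    simp only [hY]
    rw [neg_sq]
  · simp only [hY]
    rw [zero_pow two_ne_zero, hp0]
  · intro z hz
    exact inv_ne_zero (hsne _ (hsqm z hz))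
  · rintro a ⟨ha, ha0⟩ b ⟨hb, hb0⟩ hab
    have ha0' : a ≠ 0 := ha0
    have hb0' : b ≠ 0 := hb0
    have hab' : (s (a ^ 2))⁻¹ / a = (s (b ^ 2))⁻¹ / b := hab
    have e1 := hsne _ (hsqm a ha)
    have e2 := hsne _ (hsqm b hb)
    apply hGi ha hb
    change a * s (a ^ 2) = b * s (b ^ 2)
    rw [inv_div_left, inv_div_left] at hab'
    exact inv_injective hab'
  · intro z hz
    have e1 := hsne _ (hsqm z hz)
    rw [← hG2 z hz]
    change (z * s (z ^ 2)) ^ 2 * ((s (z ^ 2))⁻¹) ^ 2 = z ^ 2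
    field_simp
  · -- ep
    have hs1 : HasDerivAt s (deriv s 0) (0:ℂ) := (hs.differentiableAt hnb).hasDerivAt
    set r : ℂ → ℂ := dslope p 0 with hr
    have hrd : DifferentiableOn ℂ r (ball (0:ℂ) 1) := (Complex.differentiableOn_dslope hnb).mpr hpd
    have hr0 : r 0 = - deriv s 0 := by
      change dslope p 0 0 = _
      rw [dslope_same]
      have h2 : HasDerivAt p _ (0:ℂ) := hs1.inv (by rw [hs0]; exact one_ne_zero)
      rw [h2.deriv, hs0]
      simp
    have hpr : ∀ w, p w = 1 + w * r w := by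
      intro w
      have := sub_smul_dslope p 0 w
      simp only [sub_zero, hp0, smul_eq_mul] at this
      linear_combination -this
    have hYr : ∀ z, dslope Y 0 z = z * r (z ^ 2) := by
      intro z
      by_cases hz : z = 0
      · rw [hz, dslope_same]
        have h2 : HasDerivAt Y (deriv p (0 ^ 2) * (2 * 0)) 0 := by
          have h3 : HasDerivAt (fun z : ℂ => z ^ 2) (2 * 0) 0 := by
            simpa using hasDerivAt_pow 2 (0:ℂ)
          have h4 : HasDerivAt p (deriv p (0 ^ 2)) ((0:ℂ) ^ 2) := by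
            have : (0:ℂ) ^ 2 = 0 := by norm_num
            rw [this]
            exact (hpd.differentiableAt hnb).hasDerivAt
          exact HasDerivAt.comp (h₂ := p) (h := fun z => z ^ 2) 0 h4 h3
        rw [h2.deriv]
        ring
      · rw [dslope_of_ne _ hz, slope_def_field]
        simp only [hY]
        rw [hpr (z ^ 2), zero_pow two_ne_zero, hp0, sub_zero]
        field_simp
        ring
    have hhY : hh Y = fun z => z * r (z ^ 2) + z := by
      funext z
      simp only [hh]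
      rw [hYr]
    have hdr : HasDerivAt (fun z => z * r (z ^ 2) + z) (r 0 + 1) 0 := by
      have h3 : HasDerivAt (fun z : ℂ => z ^ 2) (2 * 0) 0 := by
        simpa using hasDerivAt_pow 2 (0:ℂ)
      have h4 : HasDerivAt r (deriv r (0 ^ 2)) ((0:ℂ) ^ 2) := by
        have : (0:ℂ) ^ 2 = 0 := by norm_num
        rw [this]
        exact (hrd.differentiableAt hnb).hasDerivAt
      have h5 : HasDerivAt (fun z => r (z ^ 2)) (deriv r (0 ^ 2) * (2 * 0)) 0 :=
        HasDerivAt.comp (h₂ := r) (h := fun z => z ^ 2) 0 h4 h3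
      have h6 := ((hasDerivAt_id (0:ℂ)).mul h5).add (hasDerivAt_id (0:ℂ))
      have h7 : HasDerivAt (fun z => z * r (z ^ 2) + z) (1 * r (0 ^ 2) + 0 * (deriv r (0 ^ 2) * (2 * 0)) + 1) (0:ℂ) := h6
      convert h7 using 1
      rw [zero_pow two_ne_zero]
      ring
    have hc2 : coeff 2 f = deriv q 0 := by
      have e : f = fun z => z * q z := funext hgq
      rw [e]
      exact Pool.Agent.Helper859.SP.W2.coeff2_aux q hq
    have hqs : deriv q 0 = 2 * deriv s 0 := by
      have hev : q =ᶠ[𝓝 (0:ℂ)] fun z => s z ^ 2 := by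
        filter_upwards [hnb] with z hz
        exact (hsq z hz).symm
      rw [hev.deriv_eq]
      have h4 : HasDerivAt (fun z => s z ^ 2) _ (0:ℂ) := hs1.pow 2
      rw [h4.deriv, hs0]
      simp
    unfold ep
    rw [hhY, hdr.deriv, hr0, hc2, hqs]
    simp
    ring

end Pool.Agent.H788R3.Bom
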